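import Pool.Agent.Lib.MP_c0175c_an.Sw.Plane

set_option autoImplicit false

open Set Filter Topology

namespace Pool.Agent.Lib.MP_c0175c_an.Ch

universe u

/-- A prime with a slope and an intercept below it. -/
abbrev Ix := {t : ℕ × ℕ × ℕ // t.1.Prime ∧ t.2.1 < t.1 ∧ t.2.2 < t.1}

/-- The codes of the points on a line. -/
def pts (t : Ix) : Finset ℕ := (Finset.range t.1.1).image
  fun x => Nat.pair t.1.1 (Nat.pair x ((t.1.2.1 * x + t.1.2.2) % t.1.1))

/-- The indicator vector of a line. -/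
noncomputable def line (t : Ix) : C0 := Blocks.vec (pts t) fun _ => 1

theorem line_one {t : Ix} {n : ℕ} : line t n = 1 ↔ n ∈ pts t := by
  rw [line, Blocks.vec_apply]
  split_ifs with h <;> simp [h]

theorem line01 (t : Ix) (n : ℕ) : line t n = 0 ∨ line t n = 1 := by
  rw [line, Blocks.vec_apply]
  split_ifs <;> simp

theorem pts_two {s t : Ix} {n n' : ℕ} (a : n ∈ pts s) (b : n ∈ pts t) (c : n' ∈ pts s)
    (d : n' ∈ pts t) : n = n' ∨ s = t := by
  obtain ⟨⟨p, a1, b1⟩, hp, ha1, hb1⟩ := s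
  obtain ⟨⟨p', a2, b2⟩, hp', ha2, hb2⟩ := t
  simp only [pts, Finset.mem_image, Finset.mem_range] at a b c d hp ha1 hb1 hp' ha2 hb2
  obtain ⟨x, hx, rfl⟩ := a
  obtain ⟨y, hy, rfl⟩ := c
  obtain ⟨x', -, b⟩ := b
  obtain ⟨y', -, d⟩ := d
  simp only [Nat.pair_eq_pair] at b d
  obtain ⟨rfl, rfl, e1⟩ := b
  obtain ⟨-, rfl, e2⟩ := d
  by_cases k : x' = y'
  · left
    rw [k]
  right
  haveI := Fact.mk hp
  have inj : ∀ {u v : ℕ}, u < p' → v < p' → (u : ZMod p') = v → u = v := fun hu hv e => by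
    have := congrArg ZMod.val e
    rwa [ZMod.val_cast_of_lt hu, ZMod.val_cast_of_lt hv] at this
  have f1 := (ZMod.natCast_eq_natCast_iff' _ _ _).2 e1
  have f2 := (ZMod.natCast_eq_natCast_iff' _ _ _).2 e2
  push_cast at f1 f2
  have f3 : ((a2 : ZMod p') - a1) * ((x' : ZMod p') - y') = 0 := by linear_combination f1 - f2
  have f4 : (a2 : ZMod p') = a1 := sub_eq_zero.1 ((mul_eq_zero.1 f3).resolve_right
    fun e => k (inj hx hy (sub_eq_zero.1 e)))
  have f5 : (b2 : ZMod p') = b1 := by linear_combination f1 - (x' : ZMod p') * f4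
  obtain rfl := inj ha2 ha1 f4
  obtain rfl := inj hb2 hb1 f5
  rfl

theorem line_weakly_null (φ : StrongDual ℝ C0) :
    Tendsto (fun t => φ (line t)) cofinite (𝓝 0) := by
  rw [Metric.tendsto_nhds]
  intro ε hε
  obtain ⟨T, hT⟩ := (Blocks.summable_coeff φ).vanishing (Iio_mem_nhds hε)
  obtain ⟨K, hK⟩ := T.bddAbove
  have fin : {t : Ix | t.1.1 ≤ K}.Finite := by
    refine Finite.of_finite_image (f := Subtype.val) (((finite_le_nat K).prod
      ((finite_le_nat K).prod (finite_le_nat K))).subset ?_) Subtype.val_injective.injOn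
    rintro _ ⟨t, ht, rfl⟩
    exact ⟨ht, t.2.2.1.le.trans ht, t.2.2.2.le.trans ht⟩
  filter_upwards [fin.compl_mem_cofinite] with t ht
  have ht' : K < t.1.1 := not_le.1 ht
  have hd : Disjoint (pts t) T := by
    rw [Finset.disjoint_left]
    intro n hn hnT
    have h1 : n ≤ K := hK hnT
    obtain ⟨x, -, rfl⟩ := Finset.mem_image.1 hn
    exact absurd ((Nat.left_le_pair _ _).trans h1) (not_le.2 ht')
  have h3 : ∑ n ∈ pts t, |φ (Blocks.vec {n} fun _ => 1)| < ε := hT _ hd
  rw [Real.dist_eq, sub_zero, line, Blocks.apply_vec]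
  refine lt_of_le_of_lt (Finset.abs_sum_le_sum_abs _ _) (lt_of_le_of_lt (le_of_eq ?_) h3)
  exact Finset.sum_congr rfl fun n _ => by rw [one_mul]

theorem line_tendsto :
    Tendsto (fun t => toWeakSpace ℝ C0 (line t)) cofinite (𝓝 (toWeakSpace ℝ C0 0)) := by
  have h : IsInducing (fun (x : WeakSpace ℝ C0) (φ : StrongDual ℝ C0) =>
      φ ((toWeakSpace ℝ C0).symm x)) := ⟨rfl⟩
  rw [h.tendsto_nhds_iff, tendsto_pi_nhds]
  intro φ
  simpa using line_weakly_null φ

theorem not_ap_line : ¬ Ap.{u} (range line) := by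
  intro hK
  obtain ⟨H, i1, i2, M, h, g, a, b, c, d⟩ := hK (1 / 4) (by norm_num)
  obtain ⟨R, hR⟩ := exists_nat_gt (64 * M ^ 2)
  obtain ⟨p, hp1, hp⟩ := Nat.exists_infinite_primes (R + 4)
  haveI := Fact.mk hp
  let t : ZMod p → ZMod p → Ix := fun u v => ⟨(p, u.val, v.val), hp, u.val_lt, v.val_lt⟩
  have key := plane (F := ZMod p) (fun u v => h (line (t u v)))
    (fun x y => g (Nat.pair p (Nat.pair x.val y.val))) a (fun u v => b _ ⟨_, rfl⟩)
    (fun x y => c _) (fun u v x y => ?_) (by rw [ZMod.card]; omega)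
  · rw [ZMod.card] at key
    have : (R : ℝ) + 4 ≤ p := by exact_mod_cast hp1
    linarith
  · have e : Nat.pair p (Nat.pair x.val y.val) ∈ pts (t u v) ↔ y = u * x + v := by
      simp only [pts, t, Finset.mem_image, Finset.mem_range, Nat.pair_eq_pair, true_and]
      constructor
      · rintro ⟨z, -, rfl, e⟩
        have := congrArg (Nat.cast : ℕ → ZMod p) e
        simpa using this.symm
      · rintro rfl
        refine ⟨x.val, x.val_lt, rfl, ?_⟩
        rw [ZMod.val_add, ZMod.val_mul, Nat.mod_add_mod]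
    have e' : line (t u v) (Nat.pair p (Nat.pair x.val y.val)) =
        if y = u * x + v then 1 else 0 := by
      rw [line, Blocks.vec_apply]
      simp only [e]
    rw [← e']
    exact d _ ⟨_, rfl⟩ _

end Pool.Agent.Lib.MP_c0175c_an.Ch
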