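import Pool.Agent.Lib.MP_c0175c_an.Ch.Dir1

set_option autoImplicit false

open Set Filter Topology

namespace Pool.Agent.Lib.MP_c0175c_an.Ch

/-- The incidence matrix of an affine plane is far from inner products of short vectors. -/
theorem plane {F E : Type*} [Field F] [Fintype F] [DecidableEq F] [NormedAddCommGroup E]
    [InnerProductSpace ℝ E] (H G : F → F → E) {M : ℝ} (hM : 0 < M) (hH : ∀ a b, ‖H a b‖ ≤ 1)
    (hG : ∀ x y, ‖G x y‖ ≤ M)
    (h : ∀ a b x y, |(if y = a * x + b then (1 : ℝ) else 0) - inner ℝ (H a b) (G x y)| ≤ 1 / 4)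
    (h4 : 4 ≤ Fintype.card F) : (Fintype.card F : ℝ) ≤ 64 * M ^ 2 := by
  set q : ℝ := (Fintype.card F : ℝ) with hq
  have q4 : (4 : ℝ) ≤ q := by rw [hq]; exact_mod_cast h4
  have q0 : 0 < q := by linarith
  let m : F → E := fun a => q⁻¹ • ∑ b, H a b
  let C : F → F → E := fun a b => H a b - m a
  have c0 : ∀ a, ∑ b, C a b = 0 := fun a => by
    simp only [C, m, Finset.sum_sub_distrib, Finset.sum_const, Finset.card_univ]
    rw [← Nat.cast_smul_eq_nsmul ℝ, smul_smul, ← hq, mul_inv_cancel₀ q0.ne', one_smul, sub_self]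
  have c1 : ∀ a b, ‖C a b‖ ≤ 2 := fun a b => by
    have e : ‖m a‖ ≤ 1 := by
      simp only [m]
      rw [norm_smul, Real.norm_eq_abs, abs_of_pos (inv_pos.2 q0), inv_mul_le_iff₀ q0]
      refine (norm_sum_le _ _).trans ((Finset.sum_le_sum fun b _ => hH a b).trans ?_)
      simp [hq]
    exact (norm_sub_le _ _).trans (by linarith [hH a b])
  let w : F → F → E := fun x y => ∑ a, C a (y - a * x)
  have w1 : ∀ x y, q / 4 ≤ inner ℝ (w x y) (G x y) := fun x y => by
    have e1 : ∀ a, (1 : ℝ) / 2 - q⁻¹ ≤ inner ℝ (C a (y - a * x)) (G x y) := fun a => by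
      have b1 := abs_le.1 (h a (y - a * x) x y)
      rw [if_pos (by ring)] at b1
      have b2 : ∑ b, (inner ℝ (H a b) (G x y) : ℝ) ≤
          ∑ b, ((if b = y - a * x then (1 : ℝ) else 0) + 1 / 4) :=
        Finset.sum_le_sum fun b _ => by
          have b3 := abs_le.1 (h a b x y)
          have e : (y = a * x + b) ↔ (b = y - a * x) := by
            constructor <;> intro k <;> rw [k] <;> ring
          simp only [e] at b3
          linarith [b3.1]
      rw [Finset.sum_add_distrib, Finset.sum_ite_eq' Finset.univ, if_pos (Finset.mem_univ _),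
        Finset.sum_const, Finset.card_univ, nsmul_eq_mul, ← hq] at b2
      have b4 : (inner ℝ (m a) (G x y) : ℝ) ≤ q⁻¹ + 1 / 4 := by
        simp only [m]
        rw [real_inner_smul_left, sum_inner, inv_mul_le_iff₀ q0, mul_add, mul_inv_cancel₀ q0.ne']
        exact b2
      simp only [C]
      rw [inner_sub_left]
      linarith [b1.2]
    have e2 : q⁻¹ ≤ 1 / 4 := by
      rw [one_div]
      exact inv_anti₀ (by norm_num) q4
    simp only [w]
    rw [sum_inner]
    refine le_trans ?_ (Finset.sum_le_sum fun a _ =>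
      (show (1 : ℝ) / 4 ≤ _ from le_trans (by linarith) (e1 a)))
    rw [Finset.sum_const, Finset.card_univ, nsmul_eq_mul, ← hq]
    linarith
  have w2 : ∀ x y, (q / 4) ^ 2 ≤ M ^ 2 * ‖w x y‖ ^ 2 := fun x y => by
    have b1 := (w1 x y).trans ((real_inner_le_norm _ _).trans
      (mul_le_mul_of_nonneg_left (hG x y) (norm_nonneg _)))
    rw [← mul_pow, mul_comm M]
    exact pow_le_pow_left₀ (by positivity) b1 2
  have w3 : ∑ x, ∑ y, ‖w x y‖ ^ 2 ≤ 4 * q ^ 3 := by
    have e1 : ∀ x y, ‖w x y‖ ^ 2 =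
        ∑ a, ∑ a', (inner ℝ (C a (y - a * x)) (C a' (y - a' * x)) : ℝ) := fun x y => by
      rw [← real_inner_self_eq_norm_sq]
      simp only [w]
      rw [sum_inner]
      exact Finset.sum_congr rfl fun a _ => inner_sum _ _ _
    have e2 : ∀ a a', ∑ x, ∑ y, (inner ℝ (C a (y - a * x)) (C a' (y - a' * x)) : ℝ) ≤
        if a' = a then 4 * q ^ 2 else 0 := fun a a' => by
      split_ifs with k
      · subst k
        refine (Finset.sum_le_sum fun x _ => Finset.sum_le_sum fun y _ =>
          (show _ ≤ (4 : ℝ) from ?_)).trans ?_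
        · rw [real_inner_self_eq_norm_sq]
          nlinarith [c1 a' (y - a' * x), norm_nonneg (C a' (y - a' * x))]
        · simp only [Finset.sum_const, Finset.card_univ, nsmul_eq_mul, ← hq]
          nlinarith
      · have e3 : ∀ x, ∑ y, (inner ℝ (C a (y - a * x)) (C a' (y - a' * x)) : ℝ) =
            ∑ b, (inner ℝ (C a b) (C a' (b + (a - a') * x)) : ℝ) := fun x =>
          Fintype.sum_equiv (Equiv.subRight (a * x)) _ _ fun y => by
            simp only [Equiv.subRight_apply]
            congr 2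
            ring
        simp only [e3]
        rw [Finset.sum_comm]
        refine le_of_eq (Finset.sum_eq_zero fun b _ => ?_)
        rw [← inner_sum]
        have e4 : ∑ x, C a' (b + (a - a') * x) = ∑ z, C a' z :=
          Fintype.sum_equiv ((Equiv.mulLeft₀ (a - a') (sub_ne_zero.2 (Ne.symm k))).trans
            (Equiv.addLeft b)) _ _ fun x => rfl
        rw [e4, c0, inner_zero_right]
    simp only [e1]
    calc ∑ x, ∑ y, ∑ a, ∑ a', (inner ℝ (C a (y - a * x)) (C a' (y - a' * x)) : ℝ)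
        = ∑ x, ∑ a, ∑ a', ∑ y, (inner ℝ (C a (y - a * x)) (C a' (y - a' * x)) : ℝ) :=
          Finset.sum_congr rfl fun x _ => by
            rw [Finset.sum_comm]
            exact Finset.sum_congr rfl fun a _ => Finset.sum_comm
      _ = ∑ a, ∑ a', ∑ x, ∑ y, (inner ℝ (C a (y - a * x)) (C a' (y - a' * x)) : ℝ) := by
          rw [Finset.sum_comm]
          exact Finset.sum_congr rfl fun a _ => Finset.sum_comm
      _ ≤ ∑ a : F, ∑ a' : F, if a' = a then 4 * q ^ 2 else 0 :=
          Finset.sum_le_sum fun a _ => Finset.sum_le_sum fun a' _ => e2 a a'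
      _ = 4 * q ^ 3 := by
          simp only [Finset.sum_ite_eq', Finset.mem_univ, if_true, Finset.sum_const,
            Finset.card_univ, nsmul_eq_mul, ← hq]
          ring
  have w4 : ∑ x : F, ∑ y : F, (q / 4) ^ 2 ≤ ∑ x, ∑ y, M ^ 2 * ‖w x y‖ ^ 2 :=
    Finset.sum_le_sum fun x _ => Finset.sum_le_sum fun y _ => w2 x y
  simp only [Finset.sum_const, Finset.card_univ, nsmul_eq_mul, ← hq, ← Finset.mul_sum] at w4
  have w5 := w4.trans (mul_le_mul_of_nonneg_left w3 (sq_nonneg M))
  have q3 : 0 < q ^ 3 := by positivity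
  refine le_of_mul_le_mul_right ?_ q3
  nlinarith

/-- Zero-one vectors that pairwise share at most one coordinate satisfy the finite form of the
criterion of James. -/
theorem james {K : Set C0} (h01 : ∀ x ∈ K, ∀ n, x n = 0 ∨ x n = 1)
    (h2 : ∀ x ∈ K, ∀ y ∈ K, ∀ n n', x n = 1 → y n = 1 → x n' = 1 → y n' = 1 → n = n' ∨ x = y)
    {ε : ℝ} (hε : 0 < ε) : ∃ N : ℕ, ∀ x : ℕ → C0, (∀ i < N, x i ∈ K) →
      ∃ k, 0 < k ∧ k < N ∧ ∃ y ∈ convexHull ℝ (x '' Iio k), ∃ z ∈ convexHull ℝ (x '' Ico k N),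
        ‖y - z‖ ≤ ε := by
  classical
  obtain ⟨m0, hm0⟩ := exists_nat_one_div_lt hε
  set m : ℕ := m0 + 1 with hm
  have m1 : 0 < m := Nat.succ_pos _
  have m2 : 1 ≤ ε * m := by
    rw [div_lt_iff₀ (by positivity)] at hm0
    rw [hm]
    push_cast
    exact hm0.le
  refine ⟨4 * m ^ 2, fun x hx => ?_⟩
  set N := 4 * m ^ 2 with hN
  have avg : ∀ (c : ℕ) (e : ℕ → ℕ), 0 < c → (∀ i j, i < j → j < 2 * c → e i < e j) →
      (∀ i < 2 * c, e i < N) → (∀ n, |∑ i ∈ Finset.range c, x (e i) n -
        ∑ i ∈ Finset.range c, x (e (c + i)) n| ≤ ε * c) →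
      ∃ k, 0 < k ∧ k < N ∧ ∃ y ∈ convexHull ℝ (x '' Iio k), ∃ z ∈ convexHull ℝ (x '' Ico k N),
        ‖y - z‖ ≤ ε := by
    intro c e hc e1 e2 e3
    have c0 : (0 : ℝ) < c := by exact_mod_cast hc
    have s1 : ∑ _i ∈ Finset.range c, (c : ℝ)⁻¹ = 1 := by
      rw [Finset.sum_const, Finset.card_range, nsmul_eq_mul, mul_inv_cancel₀ c0.ne']
    refine ⟨e c, lt_of_le_of_lt (Nat.zero_le _) (e1 0 c hc (by omega)), e2 c (by omega),
      ∑ i ∈ Finset.range c, (c : ℝ)⁻¹ • x (e i), ?_,
      ∑ i ∈ Finset.range c, (c : ℝ)⁻¹ • x (e (c + i)), ?_, norm_le0 _ hε.le fun n => ?_⟩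
    · exact (convex_convexHull ℝ _).sum_mem (fun _ _ => by positivity) s1 fun i hi =>
        subset_convexHull ℝ _ ⟨e i, e1 i c (Finset.mem_range.1 hi) (by omega), rfl⟩
    · refine (convex_convexHull ℝ _).sum_mem (fun _ _ => by positivity) s1 fun i hi =>
        subset_convexHull ℝ _ ⟨e (c + i), ⟨?_, e2 _ ?_⟩, rfl⟩
      · have := Finset.mem_range.1 hi
        rcases Nat.eq_zero_or_pos i with k | k
        · rw [k]
          exact le_rfl
        · exact (e1 c (c + i) (by omega) (by omega)).le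
      · have := Finset.mem_range.1 hi
        omega
    · have e4 : ∀ u : ℕ → C0, (∑ i ∈ Finset.range c, (c : ℝ)⁻¹ • u i) n =
          (c : ℝ)⁻¹ * ∑ i ∈ Finset.range c, u i n := fun u => by
        rw [Finset.mul_sum]
        exact map_sum (Blocks.ev n) _ _
      rw [ZeroAtInftyContinuousMap.sub_apply, e4 fun i => x (e i), e4 fun i => x (e (c + i)),
        ← mul_sub, abs_mul, abs_of_pos (inv_pos.2 c0), inv_mul_le_iff₀ c0, mul_comm]
      exact e3 n
  by_cases hA : ∃ i j, i < j ∧ j < N ∧ x i = x j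
  · obtain ⟨i, j, a1, a2, a3⟩ := hA
    refine ⟨j, by omega, a2, x i, subset_convexHull ℝ _ ⟨i, a1, rfl⟩, x j,
      subset_convexHull ℝ _ ⟨j, ⟨le_rfl, a2⟩, rfl⟩, ?_⟩
    rw [a3, sub_self, norm_zero]
    exact hε.le
  have cnt : ∀ (t : Finset ℕ) (e : ℕ → ℕ) (n : ℕ), (∀ i ∈ t, e i < N) →
      ∑ i ∈ t, x (e i) n = ((t.filter fun i => x (e i) n = 1).card : ℝ) := fun t e n h => by
    rw [Finset.card_filter]
    push_cast
    refine Finset.sum_congr rfl fun i hi => ?_
    rcases h01 _ (hx _ (h i hi)) n with k | k <;> simp [k]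
  have dif : ∀ {a b : ℕ} {r : ℝ}, (a : ℝ) ≤ r → (b : ℝ) ≤ r → |(a : ℝ) - b| ≤ r := fun ha hb => by
    rw [abs_le]
    constructor <;> linarith [Nat.cast_nonneg (α := ℝ) _ |>.trans ha]
  by_cases hB : ∃ n, 2 * m ≤ ((Finset.range N).filter fun i => x i n = 1).card
  · obtain ⟨n0, hn0⟩ := hB
    let p : ℕ → Prop := fun i => i < N ∧ x i n0 = 1
    have pf : (Set.ofPred p).Finite := (finite_lt_nat N).subset fun i hi => hi.1
    have pc : 2 * m ≤ pf.toFinset.card := hn0.trans (Finset.card_le_card fun i hi => by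
      simpa [p] using hi)
    have e1 : ∀ i j, i < j → j < 2 * m → Nat.nth p i < Nat.nth p j := fun i j a b =>
      Nat.nth_lt_nth_of_lt_card pf a (by omega)
    have e2 : ∀ i < 2 * m, p (Nat.nth p i) := fun i a => Nat.nth_mem_of_lt_card pf (by omega)
    refine avg m (Nat.nth p) m1 e1 (fun i a => (e2 i a).1) fun n => ?_
    by_cases k : n = n0
    · subst k
      rw [Finset.sum_congr rfl fun i hi => (e2 i (by have := Finset.mem_range.1 hi; omega)).2,
        Finset.sum_congr rfl fun i hi =>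
          (e2 (m + i) (by have := Finset.mem_range.1 hi; omega)).2, sub_self, abs_zero]
      positivity
    · have one : ∀ d, d ≤ m → (((Finset.range m).filter
          fun i => x (Nat.nth p (d + i)) n = 1).card : ℝ) ≤ ε * m := fun d hd => by
        refine le_trans ?_ m2
        norm_cast
        refine Finset.card_le_one.2 fun i hi j hj => ?_
        simp only [Finset.mem_filter, Finset.mem_range] at hi hj
        have b1 := e2 (d + i) (by omega)
        have b2 := e2 (d + j) (by omega)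
        rcases h2 _ (hx _ b1.1) _ (hx _ b2.1) n n0 hi.2 hj.2 b1.2 b2.2 with b | b
        · exact absurd b k
        · by_contra hij
          rcases lt_or_gt_of_ne hij with l | l
          · exact hA ⟨_, _, e1 (d + i) (d + j) (by omega) (by omega), b2.1, b⟩
          · exact hA ⟨_, _, e1 (d + j) (d + i) (by omega) (by omega), b1.1, b.symm⟩
      rw [cnt _ (Nat.nth p) n fun i hi => (e2 i (by have := Finset.mem_range.1 hi; omega)).1,
        cnt _ (fun i => Nat.nth p (m + i)) n fun i hi =>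
          (e2 (m + i) (by have := Finset.mem_range.1 hi; omega)).1]
      exact dif (by simpa using one 0 (Nat.zero_le _)) (one m le_rfl)
  · push Not at hB
    have c2 : 2 * (2 * m ^ 2) = N := by rw [hN]; ring
    refine avg (2 * m ^ 2) id (by positivity) (fun i j a _ => a) (fun i a => c2 ▸ a) fun n => ?_
    have few : ∀ d, d ≤ 2 * m ^ 2 → (((Finset.range (2 * m ^ 2)).filter
        fun i => x (d + i) n = 1).card : ℝ) ≤ ε * ((2 * m ^ 2 : ℕ) : ℝ) := fun d hd => by
      have b1 : ((Finset.range (2 * m ^ 2)).filter fun i => x (d + i) n = 1).card ≤ 2 * m := by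
        refine le_trans (Finset.card_le_card_of_injOn (fun i => d + i) (fun i hi => ?_)
          fun i _ j _ e => by simpa using e) (hB n).le
        simp only [Finset.coe_filter, Finset.mem_range, Set.mem_ofPred_eq] at hi ⊢
        exact ⟨by omega, hi.2⟩
      have b2 : (0 : ℝ) < m := by exact_mod_cast m1
      refine le_trans (Nat.cast_le.2 b1) ?_
      push_cast
      nlinarith
    rw [cnt _ id n fun i hi => by have := Finset.mem_range.1 hi; simp only [id]; omega,
      cnt _ (fun i => id (2 * m ^ 2 + i)) n fun i hi => by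
        have := Finset.mem_range.1 hi; simp only [id]; omega]
    exact dif (by simpa using few 0 (Nat.zero_le _)) (few _ le_rfl)

end Pool.Agent.Lib.MP_c0175c_an.Ch
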